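import Pool.Agent.Helper2.LD.St1

/-!
# LD project, module Full: the full graph is bipartite, has no cycles of length at most 6 and has free vertices
-/

set_option autoImplicit false

namespace Pool.Agent.Helper26.LD

open Pool.Agent.Helper2.LD

/-- Depth of a name. -/
def dep {K : Type} : Fb K → ℕ
  | .root => 0
  | .a1 _ _ => 1
  | .a2 _ _ => 2
  | .r _ _ => 3
  | .lf _ _ _ => 4
  | .mk _ _ _ j => 1 + max j 1

theorem dep_par {K : Type} (f : Fb K) (h : f ≠ Fb.root) : dep f = dep (Fb.par f) + 1 := by
  cases f with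
  | root => exact absurd rfl h
  | a1 κ c => rfl
  | a2 κ c => rfl
  | r κ c => rfl
  | lf κ c i => rfl
  | mk κ c i j =>
    simp only [Fb.par]
    split_ifs with h1
    · simp only [dep]
      rw [max_eq_right h1]
    · simp only [dep]
      rw [max_eq_left (by omega), max_eq_left (by omega)]
      omega

theorem dep_pos {K : Type} (f : Fb K) (h : f ≠ Fb.root) : 0 < dep f := by
  rw [dep_par f h]; omega

theorem adj_dep {K : Type} {f g : Fb K} (h : Fb.adj f g) : dep f = dep g + 1 ∨ dep g = dep f + 1 := by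
  rcases h with ⟨h1, h2⟩ | ⟨h1, h2⟩
  · left; rw [h2]; exact dep_par f h1
  · right; rw [h2]; exact dep_par g h1

/-- A neighbour of smaller or equal depth of a name which is not the root is its parent. -/
theorem adj_le {K : Type} {f g : Fb K} (h : Fb.adj f g) (hd : dep g ≤ dep f) : g = Fb.par f := by
  rcases h with ⟨_, h2⟩ | ⟨h1, h2⟩
  · exact h2
  · exfalso
    have := dep_par g h1
    rw [← h2] at this
    omega

theorem full_adj {K V : Type} {k : ℕ} {C : KCode k K} {S : SimpleGraph V} {lab : V → Finset K}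
    {u v : FullV k C lab} : (full k C S lab).Adj u v ↔
      ((brG K S (HH k)).Adj u.1.1 v.1.1 ∧ u.1.2 = Fb.root ∧ v.1.2 = Fb.root) ∨
        (u.1.1 = v.1.1 ∧ Fb.adj u.1.2 v.1.2) := Iff.rfl

theorem full_bip {K V : Type} {k : ℕ} {C : KCode k K} {S : SimpleGraph V} {lab : V → Finset K}
    (h : Bip (brG K S (HH k))) : Bip (full k C S lab) := by
  obtain ⟨col, hcol⟩ := h
  refine ⟨fun u => xor (col u.1.1) (decide (dep u.1.2 % 2 = 1)), fun u v huv => ?_⟩
  rw [full_adj] at huv
  rcases huv with ⟨h1, h2, h3⟩ | ⟨h1, h2⟩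
  · simp only [h2, h3]
    have := hcol _ _ h1
    intro h4
    exact this (by simpa [dep] using h4)
  · simp only [h1]
    intro h4
    have h5 : decide (dep u.1.2 % 2 = 1) = decide (dep v.1.2 % 2 = 1) := by
      simpa using h4
    have h6 : (dep u.1.2 % 2 = 1) ↔ (dep v.1.2 % 2 = 1) := by
      simpa using h5
    rcases adj_dep h2 with h7 | h7 <;> omega

/-- A neighbour of not larger depth of a vertex of positive depth is determined. -/
theorem full_parent {K V : Type} {k : ℕ} {C : KCode k K} {S : SimpleGraph V} {lab : V → Finset K}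
    {u v w : FullV k C lab} (hu : u.1.2 ≠ Fb.root) (hv : (full k C S lab).Adj u v)
    (hw : (full k C S lab).Adj u w) (hdv : dep v.1.2 ≤ dep u.1.2) (hdw : dep w.1.2 ≤ dep u.1.2) :
    v = w := by
  rw [full_adj] at hv hw
  rcases hv with ⟨_, h2, _⟩ | ⟨h1, h2⟩
  · exact absurd h2 hu
  rcases hw with ⟨_, h4, _⟩ | ⟨h3, h4⟩
  · exact absurd h4 hu
  apply Subtype.ext
  apply Prod.ext
  · rw [← h1, ← h3]
  · rw [adj_le h2 hdv, adj_le h4 hdw]

theorem full_noCyc {K V : Type} {k : ℕ} {C : KCode k K} {S : SimpleGraph V} {lab : V → Finset K}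
    {L : ℕ} (h : NoCyc (brG K S (HH k)) L) : NoCyc (full k C S lab) L := by
  classical
  intro v c hc
  have hroot : ∀ x ∈ c.support, x.1.2 = Fb.root := by
    obtain ⟨x, hx, hmax⟩ := Finset.exists_max_image c.support.toFinset (fun x => dep x.1.2)
      ⟨v, by simp⟩
    rw [List.mem_toFinset] at hx
    have hmax' : ∀ y ∈ c.support, dep y.1.2 ≤ dep x.1.2 := fun y hy =>
      hmax y (by rwa [List.mem_toFinset])
    by_cases hx0 : x.1.2 = Fb.root
    · intro y hy
      by_contra hy0
      have h1 := dep_pos _ hy0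
      have h2 : dep y.1.2 ≤ dep (Fb.root : Fb K) := by
        rw [← hx0]
        exact hmax' y hy
      exact absurd h2 (Nat.not_le.2 h1)
    · exfalso
      have hc' := hc.rotate hx
      have h1 := (c.rotate x hx).adj_snd hc'.not_nil
      have h2 := ((c.rotate x hx).adj_penultimate hc'.not_nil).symm
      have h3 : (c.rotate x hx).snd ∈ c.support := by
        rw [← SimpleGraph.Walk.mem_support_rotate_iff c x hx]
        exact SimpleGraph.Walk.getVert_mem_support _ _
      have h4 : (c.rotate x hx).penultimate ∈ c.support := by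
        rw [← SimpleGraph.Walk.mem_support_rotate_iff c x hx]
        exact SimpleGraph.Walk.getVert_mem_support _ _
      exact hc'.snd_ne_penultimate (full_parent hx0 h1 h2 (hmax' _ h3) (hmax' _ h4))
  let s : Set (FullV k C lab) := {x | x.1.2 = Fb.root}
  let f : (full k C S lab).induce s →g brG K S (HH k) :=
    { toFun := fun x => x.1.1.1
      map_rel' := by
        rintro ⟨a, ha⟩ ⟨b, hb⟩ hab
        have hab' : (full k C S lab).Adj a b := hab
        rw [full_adj] at hab'
        rcases hab' with ⟨h1, _, _⟩ | ⟨h1, h2⟩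
        · exact h1
        · exfalso
          have ha' : a.1.2 = Fb.root := ha
          have hb' : b.1.2 = Fb.root := hb
          rw [ha', hb'] at h2
          rcases h2 with ⟨h3, _⟩ | ⟨h3, _⟩ <;> exact h3 rfl }
  have hf : Function.Injective f := by
    rintro ⟨a, ha⟩ ⟨b, hb⟩ hab
    have ha' : a.1.2 = Fb.root := ha
    have hb' : b.1.2 = Fb.root := hb
    have hab' : a.1.1 = b.1.1 := hab
    apply Subtype.ext
    apply Subtype.ext
    exact Prod.ext hab' (by rw [ha', hb'])
  have hi : (c.induce s hroot).IsCycle := by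
    have h0 := SimpleGraph.Walk.map_induce (s := s) c hroot
    have h1 : ((c.induce s hroot).map
        (SimpleGraph.Embedding.induce (G := full k C S lab) s).toHom).IsCycle := by
      rw [h0]
      exact hc
    exact h1.of_map
  have hlen : (c.induce s hroot).length = c.length := by
    have h0 := SimpleGraph.Walk.map_induce (s := s) c hroot
    have h5 := SimpleGraph.Walk.length_map
      (SimpleGraph.Embedding.induce (G := full k C S lab) s).toHom (c.induce s hroot)
    exact h5.symm.trans (congrArg SimpleGraph.Walk.length h0)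
  have h1 := h _ _ ((SimpleGraph.Walk.isCycle_map_iff_of_injective hf).2 hi)
  rw [SimpleGraph.Walk.length_map, hlen] at h1
  exact h1

theorem full_free {K V : Type} {k : ℕ} (hk : 40 ≤ k) (κ : K) {C : KCode k K} {S : SimpleGraph V}
    {lab : V → Finset K} (h : Many V (k + 2)) : Free (full k C S lab) k := by
  classical
  intro F hF
  obtain ⟨s, hs⟩ := h (F.image fun x => x.1.1.1.1)
    ((Finset.card_image_le).trans (hF.trans (by omega)))
  have hs' : ∀ x ∈ F, x.1.1.1.1 ≠ s := by
    intro x hx hxs
    exact hs (Finset.mem_image.2 ⟨x, hx, hxs⟩)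
  have hm : 0 < MM k := by unfold MM; omega
  let b : BrV K V (HH k) := ⟨(s, []), by simp, trivial⟩
  let v : FullV k C lab := ⟨(b, Fb.lf κ false 0), Or.inl hm⟩
  refine ⟨v, fun hv => hs' v hv rfl, fun x hx hxv => ?_⟩
  rw [full_adj] at hxv
  rcases hxv with ⟨_, _, h3⟩ | ⟨h1, _⟩
  · have h3' : (Fb.lf κ false 0 : Fb K) = Fb.root := h3
    cases h3'
  · apply hs' x hx
    rw [h1]

theorem pFull : StBrD → StPL → StFull := by
  intro _ hPL K V _ _ k hk hK C S lab hS
  have hP := hPL k hk K V S hK hS
  have hne : Nonempty K := by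
    rw [← Fintype.card_pos_iff]
    omega
  obtain ⟨κ⟩ := hne
  refine ⟨full_bip hP.bip, ?_, full_free hk κ hS.2.2⟩
  have h6 : 6 ≤ 3 * NN k := by
    have : 2 ^ 1 ≤ 2 ^ (k - 3) := Nat.pow_le_pow_right (by norm_num) (by omega)
    unfold NN
    omega
  intro v c hc
  exact lt_of_le_of_lt h6 (full_noCyc hP.cyc v c hc)

end Pool.Agent.Helper26.LD
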